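import Mathlib

/-!
A unital nonassociative ring `R` of characteristic two (the magma algebra over the field with two
elements of a unital magma in which products of nonidentity elements are given by a pairing
function) and a map `R → ZMod 2` which is multiplicative, commutes with `x ↦ 1 + x`, and is not
additive.
-/

namespace Q12.Brachy

/-- The product of the magma: `0` is the identity, `i * j = pair i j` for nonzero `i`, `j`. -/
def op (i j : ℕ) : ℕ := if i = 0 then j else if j = 0 then i else Nat.pair i j

lemma op_zero_left (j : ℕ) : op 0 j = j := by simp [op]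

lemma op_zero_right (i : ℕ) : op i 0 = i := by
  unfold op
  by_cases h : i = 0
  · rw [if_pos h]; exact h.symm
  · rw [if_neg h, if_pos rfl]

lemma op_pos {i j : ℕ} (hi : 1 ≤ i) (hj : 1 ≤ j) : op i j = Nat.pair i j := by
  unfold op
  rw [if_neg (by omega), if_neg (by omega)]

lemma op_lt_left {i i' : ℕ} (h : i < i') (j : ℕ) : op i j < op i' j := by
  rcases Nat.eq_zero_or_pos j with rfl | hj
  · rw [op_zero_right, op_zero_right]; exact h
  · rcases Nat.eq_zero_or_pos i with rfl | hi
    · rw [op_zero_left, op_pos (by omega) hj]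
      have := Nat.add_le_pair i' j
      omega
    · rw [op_pos hi hj, op_pos (by omega) hj]
      exact Nat.pair_lt_pair_left _ h

lemma op_lt_right (i : ℕ) {j j' : ℕ} (h : j < j') : op i j < op i j' := by
  rcases Nat.eq_zero_or_pos i with rfl | hi
  · rw [op_zero_left, op_zero_left]; exact h
  · rcases Nat.eq_zero_or_pos j with rfl | hj
    · rw [op_zero_right, op_pos hi (by omega)]
      have := Nat.add_le_pair i j'
      omega
    · rw [op_pos hi hj, op_pos hi (by omega)]
      exact Nat.pair_lt_pair_right _ h

lemma op_le {i i' j j' : ℕ} (hi : i ≤ i') (hj : j ≤ j') : op i j ≤ op i' j' := by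
  rcases hi.lt_or_eq with h | rfl
  · rcases hj.lt_or_eq with h' | rfl
    · exact ((op_lt_left h j).trans (op_lt_right i' h')).le
    · exact (op_lt_left h j).le
  · rcases hj.lt_or_eq with h' | rfl
    · exact (op_lt_right i h').le
    · exact le_rfl

lemma op_eq_top {i i' j j' : ℕ} (hi : i ≤ i') (hj : j ≤ j') (h : op i j = op i' j') :
    i = i' ∧ j = j' := by
  rcases hi.lt_or_eq with h1 | rfl
  · exfalso
    have := op_lt_left h1 j
    have := op_le (le_refl i') hj
    omega
  · refine ⟨rfl, ?_⟩
    rcases hj.lt_or_eq with h1 | rfl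
    · exfalso
      have := op_lt_right i h1
      omega
    · rfl

lemma op_inj {i i' j j' : ℕ} (hi : 1 ≤ i) (hj : 1 ≤ j) (hi' : 1 ≤ i') (hj' : 1 ≤ j')
    (h : op i j = op i' j') : i = i' ∧ j = j' := by
  rw [op_pos hi hj, op_pos hi' hj'] at h
  exact Nat.pair_eq_pair.1 h

lemma lt_op_left {i j : ℕ} (hi : 1 ≤ i) (hj : 1 ≤ j) : i < op i j := by
  rw [op_pos hi hj]
  have := Nat.add_le_pair i j
  omega

lemma lt_op_right {i j : ℕ} (hi : 1 ≤ i) (hj : 1 ≤ j) : j < op i j := by
  rw [op_pos hi hj]
  have := Nat.add_le_pair i j
  omega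

/-- The unital magma. -/
def M : Type := ℕ

instance : DecidableEq M := inferInstanceAs (DecidableEq ℕ)

/-- The element of `M` with number `n`. -/
def M.mk (n : ℕ) : M := n

instance : MulOneClass M where
  one := M.mk 0
  mul i j := M.mk (op i j)
  one_mul j := op_zero_left j
  mul_one i := op_zero_right i

/-- The magma algebra over the field with two elements. -/
abbrev R : Type := MonoidAlgebra (ZMod 2) M

/-- Coefficient. -/
def co (u : R) (n : ℕ) : ZMod 2 := u.coeff (M.mk n)

lemma co_add (u v : R) (n : ℕ) : co (u + v) n = co u n + co v n := rfl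

lemma co_zero (n : ℕ) : co 0 n = 0 := rfl

lemma ext_co {u v : R} (h : ∀ n, co u n = co v n) : u = v := by
  apply MonoidAlgebra.coeff_injective
  ext n
  exact h n

/-- Scalars. -/
noncomputable def C (κ : ZMod 2) : R := MonoidAlgebra.single 1 κ

lemma co_C (κ : ZMod 2) (n : ℕ) : co (C κ) n = if n = 0 then κ else 0 := by
  unfold co C
  rw [MonoidAlgebra.coeff_single, Finsupp.single_apply]
  have : ((1 : M) = M.mk n) ↔ n = 0 := by
    constructor
    · intro h; exact h.symm
    · intro h; subst h; rfl
  simp only [this]

lemma C_zero : C 0 = 0 := by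
  apply ext_co; intro n; rw [co_C, co_zero]; simp

lemma C_one : C 1 = 1 := rfl

lemma C_add (κ μ : ZMod 2) : C (κ + μ) = C κ + C μ := by
  apply ext_co; intro n; rw [co_add, co_C, co_C, co_C]; split_ifs <;> simp

lemma two_zmod (κ : ZMod 2) : κ + κ = 0 := by revert κ; decide

lemma add_self (u : R) : u + u = 0 := by
  apply ext_co; intro n; rw [co_add, co_zero]; exact two_zmod _

/-- The finite support, as a set of natural numbers. -/
noncomputable def supp (u : R) : Finset ℕ := u.coeff.support

lemma mem_supp {u : R} {n : ℕ} : n ∈ supp u ↔ co u n ≠ 0 :=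
  Finsupp.mem_support_iff (f := u.coeff) (a := M.mk n)

/-- The degree: the largest number occurring in the support. -/
noncomputable def D (u : R) : ℕ := (supp u).sup id

lemma co_eq_zero_of_lt {u : R} {n : ℕ} (h : D u < n) : co u n = 0 := by
  by_contra hne
  have : n ≤ D u := Finset.le_sup (f := id) (mem_supp.2 hne)
  omega

lemma co_top {u : R} (h : u ≠ 0) : co u (D u) = 1 := by
  have hne : (supp u).Nonempty := by
    rw [Finset.nonempty_iff_ne_empty]
    intro he
    apply h
    apply ext_co
    intro n
    rw [co_zero]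
    by_contra hn
    have := mem_supp.2 hn
    rw [he] at this
    exact absurd this (Finset.notMem_empty _)
  obtain ⟨n, hn, hn'⟩ := Finset.exists_mem_eq_sup (supp u) hne id
  have h1 : co u (D u) ≠ 0 := by
    unfold D
    rw [hn']
    exact mem_supp.1 hn
  generalize co u (D u) = κ at h1 ⊢
  revert κ; decide

lemma D_le {u : R} {n : ℕ} (h : ∀ m, n < m → co u m = 0) : D u ≤ n := by
  apply Finset.sup_le
  intro m hm
  by_contra hlt
  exact mem_supp.1 hm (h m (by simpa using hlt))

lemma D_eq {u : R} {n : ℕ} (h : ∀ m, n < m → co u m = 0) (h1 : co u n ≠ 0) : D u = n := by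
  apply le_antisymm (D_le h)
  exact Finset.le_sup (f := id) (mem_supp.2 h1)

lemma D_pos_ne_zero {u : R} (h : 1 ≤ D u) : u ≠ 0 := by
  rintro rfl
  have : D 0 ≤ 0 := D_le (fun m _ => co_zero m)
  omega

lemma D_zero_eq_C {u : R} (h : D u = 0) : u = C (co u 0) := by
  apply ext_co
  intro n
  rw [co_C]
  split_ifs with hn
  · rw [hn]
  · exact co_eq_zero_of_lt (by omega)

lemma D_C (κ : ZMod 2) : D (C κ) = 0 := by
  apply Nat.le_zero.1
  apply D_le
  intro m hm
  rw [co_C, if_neg (by omega)]

lemma D_add_C (u : R) (κ : ZMod 2) : D (u + C κ) = D u := by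
  rcases Nat.eq_zero_or_pos (D u) with h | h
  · rw [h, D_zero_eq_C h, ← C_add, D_C]
  · apply D_eq
    · intro m hm
      rw [co_add, co_C, co_eq_zero_of_lt hm, if_neg (by omega)]
      simp
    · rw [co_add, co_C, co_top (D_pos_ne_zero h), if_neg (by omega)]
      decide

lemma co_mul_eq (u v : R) (n : ℕ) : co (u * v) n =
    ∑ i ∈ supp u, ∑ j ∈ supp v, if op i j = n then co u i * co v j else 0 := by
  unfold co
  rw [MonoidAlgebra.coeff_mul]
  rfl

lemma co_mul_top (u v : R) : co (u * v) (op (D u) (D v)) = co u (D u) * co v (D v) := by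
  rw [co_mul_eq]
  have hle : ∀ (w : R) (i : ℕ), i ∈ supp w → i ≤ D w := fun w i hi => Finset.le_sup (f := id) hi
  rw [Finset.sum_eq_single (D u)]
  · rw [Finset.sum_eq_single (D v)]
    · simp
    · intro j hj hne
      rw [if_neg]
      intro h
      exact hne (op_eq_top le_rfl (hle v j hj) h).2
    · intro hn
      rw [if_pos rfl]
      have : co v (D v) = 0 := by
        by_contra h
        exact hn (mem_supp.2 h)
      rw [this, mul_zero]
  · intro i hi hne
    apply Finset.sum_eq_zero
    intro j hj
    rw [if_neg]
    intro h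
    exact hne (op_eq_top (hle u i hi) (hle v j hj) h).1
  · intro hn
    have : co u (D u) = 0 := by
      by_contra h
      exact hn (mem_supp.2 h)
    apply Finset.sum_eq_zero
    intro j _
    rw [this, zero_mul]
    split_ifs <;> rfl

lemma co_mul_gt (u v : R) {n : ℕ} (hn : op (D u) (D v) < n) : co (u * v) n = 0 := by
  rw [co_mul_eq]
  apply Finset.sum_eq_zero
  intro i hi
  apply Finset.sum_eq_zero
  intro j hj
  rw [if_neg]
  intro h
  have h1 : i ≤ D u := Finset.le_sup (f := id) hi
  have h2 : j ≤ D v := Finset.le_sup (f := id) hj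
  have := op_le h1 h2
  omega

lemma D_mul {u v : R} (hu : u ≠ 0) (hv : v ≠ 0) : D (u * v) = op (D u) (D v) := by
  apply D_eq
  · intro m hm
    exact co_mul_gt u v hm
  · rw [co_mul_top, co_top hu, co_top hv]
    decide

lemma co_mul_ne (u v : R) (hu : u ≠ 0) (hv : v ≠ 0) : u * v ≠ 0 := by
  intro h
  have h1 := co_mul_top u v
  rw [h, co_zero, co_top hu, co_top hv] at h1
  exact absurd h1 (by decide)

/-- If two products of nonconstant elements have a constant sum, the degrees of the left factors
and of the right factors agree. -/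
lemma deg_eq {a b c d : R} {κ : ZMod 2} (ha : 1 ≤ D a) (hb : 1 ≤ D b) (hc : 1 ≤ D c)
    (hd : 1 ≤ D d) (h : a * b + c * d = C κ) : D a = D c ∧ D b = D d := by
  have ha0 := D_pos_ne_zero ha
  have hb0 := D_pos_ne_zero hb
  have hc0 := D_pos_ne_zero hc
  have hd0 := D_pos_ne_zero hd
  apply op_inj ha hb hc hd
  have h1 : a * b = c * d + C κ := by
    calc a * b = a * b + (c * d + c * d) := by rw [add_self, add_zero]
      _ = (a * b + c * d) + c * d := by rw [add_assoc]
      _ = c * d + C κ := by rw [h, add_comm]
  rw [← D_mul ha0 hb0, ← D_mul hc0 hd0, h1, D_add_C]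

lemma add_cancel_self (u v : R) : u + (u + v) = v := by
  rw [← add_assoc, add_self, zero_add]

/-- The coincidence lemma. -/
lemma coincidence {a b c d : R} {κ : ZMod 2} (ha : 1 ≤ D a) (hb : 1 ≤ D b) (hc : 1 ≤ D c)
    (hd : 1 ≤ D d) (h : a * b + c * d = C κ) : D (a + c) = 0 ∨ D (b + d) = 0 := by
  by_contra hcon
  push Not at hcon
  obtain ⟨h1, h2⟩ := hcon
  have hS : 1 ≤ D (a + c) := Nat.one_le_iff_ne_zero.2 h1
  have hT : 1 ≤ D (b + d) := Nat.one_le_iff_ne_zero.2 h2
  have e1 : c * (b + d) + (a + c) * b = C κ := by
    rw [← h, mul_add, add_mul]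
    calc c * b + c * d + (a * b + c * b) = a * b + c * d + (c * b + c * b) := by abel
      _ = a * b + c * d := by rw [add_self, add_zero]
  have e2 : a * (b + d) + (a + c) * d = C κ := by
    rw [← h, mul_add, add_mul]
    calc a * b + a * d + (a * d + c * d) = a * b + c * d + (a * d + a * d) := by abel
      _ = a * b + c * d := by rw [add_self, add_zero]
  have d1 := (deg_eq hc hT hS hb e1).1
  have d2 := (deg_eq ha hT hS hd e2).1
  have hS0 := D_pos_ne_zero hS
  have t := co_top hS0
  rw [co_add] at t
  have ta : co a (D (a + c)) = 1 := by rw [← d2]; exact co_top (D_pos_ne_zero ha)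
  have tc : co c (D (a + c)) = 1 := by rw [← d1]; exact co_top (D_pos_ne_zero hc)
  rw [ta, tc] at t
  exact absurd t (by decide)

/-- `p` is a factorization of `u` modulo constants. -/
def Fac (u : R) (p : R × R × ZMod 2) : Prop :=
  1 ≤ D p.1 ∧ 1 ≤ D p.2.1 ∧ u = p.1 * p.2.1 + C p.2.2

lemma Fac.lt_left {u : R} {p : R × R × ZMod 2} (h : Fac u p) : D p.1 < D u := by
  obtain ⟨h1, h2, h3⟩ := h
  rw [h3, D_add_C, D_mul (D_pos_ne_zero h1) (D_pos_ne_zero h2)]
  exact lt_op_left h1 h2

lemma Fac.lt_right {u : R} {p : R × R × ZMod 2} (h : Fac u p) : D p.2.1 < D u := by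
  obtain ⟨h1, h2, h3⟩ := h
  rw [h3, D_add_C, D_mul (D_pos_ne_zero h1) (D_pos_ne_zero h2)]
  exact lt_op_right h1 h2

lemma Fac.shift {u : R} {p : R × R × ZMod 2} (h : Fac u p) (κ : ZMod 2) :
    Fac (u + C κ) (p.1, p.2.1, p.2.2 + κ) := by
  obtain ⟨h1, h2, h3⟩ := h
  refine ⟨h1, h2, ?_⟩
  show u + C κ = p.1 * p.2.1 + C (p.2.2 + κ)
  rw [C_add, h3, add_assoc]

/-- The values on elements without factorization. -/
noncomputable def base (u : R) : ZMod 2 := co u 0 + co u 1 * co u 2

open Classical in
/-- The brachymorphism. -/
noncomputable def f (u : R) : ZMod 2 :=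
  if h : ∃ p, Fac u p then
    f (Classical.choose h).1 * f (Classical.choose h).2.1 + (Classical.choose h).2.2
  else base u
termination_by D u
decreasing_by
  · exact (Classical.choose_spec h).lt_left
  · exact (Classical.choose_spec h).lt_right

lemma f_of_fac {u : R} (h : ∃ p, Fac u p) :
    ∃ p, Fac u p ∧ f u = f p.1 * f p.2.1 + p.2.2 := by
  refine ⟨Classical.choose h, Classical.choose_spec h, ?_⟩
  rw [f, dif_pos h]

lemma f_of_not {u : R} (h : ¬ ∃ p, Fac u p) : f u = base u := by
  rw [f, dif_neg h]

lemma base_C (κ : ZMod 2) : base (C κ) = κ := by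
  unfold base
  rw [co_C, co_C, co_C]
  simp

lemma not_fac_of_small {u : R} (h : D u < 3) : ¬ ∃ p, Fac u p := by
  rintro ⟨p, h1, h2, h3⟩
  rw [h3, D_add_C, D_mul (D_pos_ne_zero h1) (D_pos_ne_zero h2), op_pos h1 h2] at h
  have h4 : Nat.pair 1 1 ≤ Nat.pair (D p.1) (D p.2.1) := by
    have := op_le h1 h2
    rwa [op_pos le_rfl le_rfl, op_pos h1 h2] at this
  have h5 : Nat.pair 1 1 = 3 := by decide
  omega

lemma f_C (κ : ZMod 2) : f (C κ) = κ := by
  rw [f_of_not (not_fac_of_small (by rw [D_C]; omega)), base_C]

lemma base_add_C (u : R) (κ : ZMod 2) : base (u + C κ) = base u + κ := by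
  unfold base
  rw [co_add, co_add, co_add, co_C, co_C, co_C]
  simp only [if_true, one_ne_zero, if_false, OfNat.ofNat_ne_zero, add_zero]
  ring

/-- Well-definedness at `u`. -/
def Good (u : R) : Prop := ∀ p, Fac u p → f u = f p.1 * f p.2.1 + p.2.2

lemma f_add_C_of_good {u : R} {κ : ZMod 2} (h : Good (u + C κ)) : f (u + C κ) = f u + κ := by
  by_cases hf : ∃ p, Fac u p
  · obtain ⟨p, hp, hfp⟩ := f_of_fac hf
    rw [h _ (hp.shift κ), hfp, add_assoc]
  · have hf' : ¬ ∃ p, Fac (u + C κ) p := by
      rintro ⟨p, hp⟩
      apply hf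
      have := hp.shift κ
      rw [add_assoc, ← C_add, two_zmod, C_zero, add_zero] at this
      exact ⟨_, this⟩
    rw [f_of_not hf, f_of_not hf', base_add_C]

lemma f_mul_of_good {a b : R} (h : Good (a * b)) : f (a * b) = f a * f b := by
  rcases Nat.eq_zero_or_pos (D a) with ha | ha
  · rw [D_zero_eq_C ha]
    generalize co a 0 = κ
    have : κ = 0 ∨ κ = 1 := by revert κ; decide
    rcases this with rfl | rfl
    · rw [C_zero, zero_mul, ← C_zero, f_C, zero_mul]
    · rw [f_C, one_mul, C_one, one_mul]
  · rcases Nat.eq_zero_or_pos (D b) with hb | hb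
    · rw [D_zero_eq_C hb]
      generalize co b 0 = κ
      have : κ = 0 ∨ κ = 1 := by revert κ; decide
      rcases this with rfl | rfl
      · rw [C_zero, mul_zero, ← C_zero, f_C, mul_zero]
      · rw [f_C, mul_one, C_one, mul_one]
    · have := h (a, b, 0) ⟨ha, hb, by rw [C_zero, add_zero]⟩
      simpa using this

lemma cancel_left {a x : R} {κ : ZMod 2} (ha : 1 ≤ D a) (h : a * x = C κ) : x = 0 := by
  by_contra hx
  have h1 := D_mul (D_pos_ne_zero ha) hx
  rw [h, D_C] at h1
  have h2 : op 1 0 ≤ op (D a) (D x) := op_le ha (Nat.zero_le _)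
  rw [op_zero_right] at h2
  omega

lemma cancel_right {a x : R} {κ : ZMod 2} (ha : 1 ≤ D a) (h : x * a = C κ) : x = 0 := by
  by_contra hx
  have h1 := D_mul hx (D_pos_ne_zero ha)
  rw [h, D_C] at h1
  have h2 : op 0 1 ≤ op (D x) (D a) := op_le (Nat.zero_le _) ha
  rw [op_zero_left] at h2
  omega

lemma eq_of_add_eq_zero {u v : R} (h : u + v = 0) : u = v := by
  have : u + v + v = v := by rw [h, zero_add]
  rwa [add_assoc, add_self, add_zero] at this

lemma zmod_eq {κ μ : ZMod 2} (h : 0 = κ + μ) : κ = μ := by revert κ μ; decide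

lemma zmod_cases (κ : ZMod 2) : κ = 0 ∨ κ = 1 := by revert κ; decide

theorem good_all : ∀ (n : ℕ) (u : R), D u = n → Good u := by
  intro n
  induction n using Nat.strong_induction_on with
  | _ n ih =>
    intro u hu p hp
    have hG : ∀ w : R, D w < n → Good w := fun w hw => ih _ hw w rfl
    obtain ⟨q, hq, hfq⟩ := f_of_fac ⟨p, hp⟩
    rw [hfq]
    obtain ⟨a, b, κ⟩ := p
    obtain ⟨c, d, κ'⟩ := q
    have hpa := hp.lt_left
    have hpb := hp.lt_right
    have hqc := hq.lt_left
    have hqd := hq.lt_right
    obtain ⟨ha, hb, hab⟩ := hp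
    obtain ⟨hc, hd, hcd⟩ := hq
    dsimp only at *
    rw [hu] at hpa hpb hqc hqd
    -- the sum of the two products is constant
    have hsum : a * b + c * d = C (κ + κ') := by
      have h1 : a * b + C κ = c * d + C κ' := hab.symm.trans hcd
      calc a * b + c * d = (a * b + C κ) + (C κ + c * d) := by
            rw [add_assoc, ← add_assoc (C κ) (C κ), add_self, zero_add]
        _ = (c * d + C κ') + (C κ + c * d) := by rw [h1]
        _ = (c * d + c * d) + (C κ + C κ') := by abel
        _ = C (κ + κ') := by rw [add_self, zero_add, C_add]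
    have shift : ∀ (w : R) (β : ZMod 2), D w < n → f (w + C β) = f w + β := by
      intro w β hw
      apply f_add_C_of_good
      apply hG
      rw [D_add_C]; exact hw
    have mulL : ∀ (w v : R), D (w * v) < n → f (w * v) = f w * f v :=
      fun w v h => f_mul_of_good (hG _ h)
    rcases coincidence ha hb hc hd hsum with h0 | h0
    · -- `c = a + C ε`
      have hac : a + c = C (co (a + c) 0) := D_zero_eq_C h0
      generalize co (a + c) 0 = ε at hac
      have hc' : c = a + C ε := by rw [← hac, add_cancel_self]
      rcases zmod_cases ε with rfl | rfl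
      · rw [C_zero, add_zero] at hc'
        subst hc'
        rw [← mul_add] at hsum
        have hbd := cancel_left hc hsum
        have hbd' := eq_of_add_eq_zero hbd
        subst hbd'
        rw [hbd, mul_zero, ← C_zero] at hsum
        have hk : κ = κ' := by
          have h5 := congrArg (fun w => co w 0) hsum
          simp only [co_C, if_true] at h5
          exact zmod_eq h5
        rw [hk]
      · subst hc'
        -- z = b + d
        have hz : a * (b + d) + d = C (κ + κ') := by
          rw [← hsum, mul_add, add_mul, C_one, one_mul]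
          abel
        have hd' : d = a * (b + d) + C (κ + κ') := by
          rw [← hz, add_cancel_self]
        have hb' : b = (a + 1) * (b + d) + C (κ + κ') := by
          calc b = d + (b + d) := by rw [add_comm b d, add_cancel_self]
            _ = (a * (b + d) + C (κ + κ')) + (b + d) := by
                conv_lhs => rw [hd']
                rw [← hd']
            _ = (a + 1) * (b + d) + C (κ + κ') := by rw [add_mul, one_mul]; abel
        generalize hzz : b + d = z at hz hd' hb'
        have hdz : D (a * z) < n := by
          have := D_add_C (a * z) (κ + κ')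
          rw [← hd'] at this
          omega
        have hbz : D ((a + 1) * z) < n := by
          have := D_add_C ((a + 1) * z) (κ + κ')
          rw [← hb'] at this
          omega
        have e1 : f d = f a * f z + (κ + κ') := by
          conv_lhs => rw [hd']
          rw [shift _ _ hdz, mulL _ _ hdz]
        have e3 : f (a + 1) = f a + 1 := by
          rw [← C_one]; exact shift a 1 hpa
        have e2 : f b = (f a + 1) * f z + (κ + κ') := by
          conv_lhs => rw [hb']
          rw [shift _ _ hbz, mulL _ _ hbz, e3]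
        rw [C_one, e1, e2, e3]
        generalize f a = A
        generalize f z = Z
        clear * -
        revert A Z κ κ'
        decide
    · -- `d = b + C ε`
      have hbd : b + d = C (co (b + d) 0) := D_zero_eq_C h0
      generalize co (b + d) 0 = ε at hbd
      have hd' : d = b + C ε := by rw [← hbd, add_cancel_self]
      rcases zmod_cases ε with rfl | rfl
      · rw [C_zero, add_zero] at hd'
        subst hd'
        rw [← add_mul] at hsum
        have hac := cancel_right hd hsum
        have hac' := eq_of_add_eq_zero hac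
        subst hac'
        rw [hac, zero_mul, ← C_zero] at hsum
        have hk : κ = κ' := by
          have h5 := congrArg (fun w => co w 0) hsum
          simp only [co_C, if_true] at h5
          exact zmod_eq h5
        rw [hk]
      · subst hd'
        have hz : (a + c) * b + c = C (κ + κ') := by
          rw [← hsum, add_mul, mul_add, C_one, mul_one]
          abel
        have hc' : c = (a + c) * b + C (κ + κ') := by
          rw [← hz, add_cancel_self]
        have ha' : a = (a + c) * (b + 1) + C (κ + κ') := by
          calc a = c + (a + c) := by rw [add_comm a c, add_cancel_self]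
            _ = ((a + c) * b + C (κ + κ')) + (a + c) := by
                conv_lhs => rw [hc']
                rw [← hc']
            _ = (a + c) * (b + 1) + C (κ + κ') := by rw [mul_add, mul_one]; abel
        generalize hzz : a + c = z at hz hc' ha'
        have hcz : D (z * b) < n := by
          have := D_add_C (z * b) (κ + κ')
          rw [← hc'] at this
          omega
        have haz : D (z * (b + 1)) < n := by
          have := D_add_C (z * (b + 1)) (κ + κ')
          rw [← ha'] at this
          omega
        have e1 : f c = f z * f b + (κ + κ') := by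
          conv_lhs => rw [hc']
          rw [shift _ _ hcz, mulL _ _ hcz]
        have e3 : f (b + 1) = f b + 1 := by
          rw [← C_one]; exact shift b 1 hpb
        have e2 : f a = f z * (f b + 1) + (κ + κ') := by
          conv_lhs => rw [ha']
          rw [shift _ _ haz, mulL _ _ haz, e3]
        rw [C_one, e1, e2, e3]
        generalize f b = B
        generalize f z = Z
        clear * -
        revert B Z κ κ'
        decide

theorem f_mul (u v : R) : f (u * v) = f u * f v := f_mul_of_good (good_all _ _ rfl)

theorem f_one_add (u : R) : f (1 + u) = 1 + f u := by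
  rw [add_comm, ← C_one, f_add_C_of_good (good_all _ _ rfl), add_comm]

/-- A basis element. -/
noncomputable def X (n : ℕ) : R := MonoidAlgebra.single (M.mk n) 1

lemma co_X (n m : ℕ) : co (X n) m = if n = m then 1 else 0 := by
  unfold co X
  rw [MonoidAlgebra.coeff_single, Finsupp.single_apply]
  rfl

lemma D_small {u : R} (h : ∀ m, 2 < m → co u m = 0) : D u < 3 := by
  have := D_le h
  omega

theorem f_not_additive : f (X 1 + X 2) ≠ f (X 1) + f (X 2) := by
  rw [f_of_not (not_fac_of_small (D_small ?_)), f_of_not (not_fac_of_small (D_small ?_)),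
    f_of_not (not_fac_of_small (D_small ?_))]
  · unfold base
    simp only [co_add, co_X]
    decide
  · intro m hm
    rw [co_X, if_neg (by omega)]
  · intro m hm
    rw [co_X, if_neg (by omega)]
  · intro m hm
    rw [co_add, co_X, co_X, if_neg (by omega), if_neg (by omega)]
    rfl

end Q12.Brachy
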